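import Pool.Agent.F155B.Odd
import Pool.Agent.DiamEven.Window
import Pool.Agent.F155W.Signed
import Pool.Agent.Rank.Clause

set_option autoImplicit false

namespace Pool.Agent.Results.MP_f155e9_co.FewLevels

open Pool.Agent.F155B

/-- With `s = ⌊(n-k)/2⌋`: the bound of Q1 for families with all sizes in `[s, n - s]` which lie in few
consecutive levels: `3` for `n + k` odd; `6`, not counting the members of sizes `s` and `n - s`, for
`n + k` even. -/
theorem few_levels (n k : ℕ) (hk : 1 ≤ k) (hkn : k ≤ n)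
    (F : Finset (Finset (Fin n))) (hanti : IsAntichain (· ⊆ ·) (F : Set (Finset (Fin n))))
    (hdiam : ∀ A ∈ F, ∀ B ∈ F, (symmDiff A B).card ≤ n - k)
    (hlo : ∀ A ∈ F, (n - k) / 2 ≤ A.card) (hhi : ∀ A ∈ F, A.card ≤ n - (n - k) / 2)
    (c : ℕ)
    (hodd : Odd (n + k) → ∀ A ∈ F, c ≤ A.card ∧ A.card < c + 3)
    (heven : Even (n + k) → ∀ A ∈ F, A.card = (n - k) / 2 ∨ A.card = n - (n - k) / 2 ∨
      (c ≤ A.card ∧ A.card < c + 6)) :
    F.card ≤ n.choose ((n + k + 1) / 2) := by
  have hc : Fintype.card (Fin n) = n := Fintype.card_fin n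
  have hsymm : n.choose ((n + k + 1) / 2) = n.choose ((n - k) / 2) := by
    rw [← Nat.choose_symm (show (n + k + 1) / 2 ≤ n by omega)]
    congr 1
    omega
  rw [hsymm]
  rcases Nat.even_or_odd (n + k) with h | h
  · have h1 := heven h
    obtain ⟨r, hr⟩ := h
    have h2 := even_levels (α := Fin n) (s := (n - k) / 2) (c := c) (by rw [hc]; omega) hanti
      (fun A hA B hB => (hdiam A hA B hB).trans (by omega)) hlo
      (fun A hA => by have := hhi A hA; rw [hc]; omega)
      (fun A hA => by have := h1 A hA; rw [hc]; omega)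
    rwa [hc] at h2
  · have h1 := hodd h
    obtain ⟨r, hr⟩ := h
    have h2 := odd_three (α := Fin n) (s := (n - k) / 2)
      (c := max (min (c + 1) (n - (n - k) / 2 - 1)) ((n - k) / 2 + 1))
      (by omega) (by rw [hc]; omega) hanti
      (fun A hA B hB => (hdiam A hA B hB).trans (by omega))
      (fun A hA => by have := h1 A hA; have := hlo A hA; have := hhi A hA; omega)
      (fun A hA => by have := h1 A hA; have := hlo A hA; have := hhi A hA; omega)
    rwa [hc] at h2

/-- Families of minimal sets of a threshold family with weights of any signs. -/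
theorem threshold (n k : ℕ) (hk : 1 ≤ k) (hkn : k ≤ n) (F : Finset (Finset (Fin n)))
    (v : Fin n → ℝ) (c : ℝ) (hv : ∀ x, v x ≠ 0)
    (hF : ∀ A ∈ F, c ≤ ∑ y ∈ A, v y ∧
      ∀ x, ∑ y ∈ symmDiff A {x}, v y < ∑ y ∈ A, v y → ∑ y ∈ symmDiff A {x}, v y < c)
    (hd : ∀ A ∈ F, ∀ B ∈ F, (symmDiff A B).card ≤ n - k) :
    F.card ≤ n.choose ((n + k + 1) / 2) := by
  have hc : Fintype.card (Fin n) = n := Fintype.card_fin n
  have hsymm : n.choose ((n + k + 1) / 2) = n.choose ((n - k) / 2) := by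
    rw [← Nat.choose_symm (show (n + k + 1) / 2 ≤ n by omega)]
    congr 1
    omega
  rw [hsymm]
  have h := Pool.Agent.F155W.bound_signed (α := Fin n) hv (c := c) (s := (n - k) / 2)
    (by rw [hc]; omega) hF (fun A hA B hB => (hd A hA B hB).trans (by omega))
  rwa [hc] at h

/-- The bound of Q1 for restricted families, for all `n` and `k`; here `s = ⌊(n-k)/2⌋`.

First part: all sizes lie in `[s, n - s]`, and the sizes lie in `3` consecutive integers if `n + k` is
odd, and the sizes other than `s` and `n - s` lie in `6` consecutive integers if `n + k` is even.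

Second part (`n + k` even, so `n - s = (n+k)/2`): any number of levels. For some centre `Z` (for
example the empty set) all distances `|A Δ Z|`, `A ∈ F`, lie in `[s, n - s]`, and `n` is odd or one
of these two extreme distances does not occur.

Third part (both parities): conditions on the sizes which leave the sizes up to `s` free (and in
some cases those from `n - s` on), for `F` or for the family of the complements of its members:
1. at most one size lies strictly between `s` and `n - s`;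
2. at most two sizes exceed `s`;
3. `n + k` is even and all sizes above `s` are among `a`, `b`, `b + 1` with `a ≤ b`;
4. for some `a` with `s < a ≤ n - s` no size lies strictly between `s` and `a`, and `|A ∖ B| ≤ s` for
   all members `A`, `B` with `|A| > a` and `a < |B| < n - s`;
5. all sizes lie in `(s - k, n - s]`, those strictly between `s` and `n - s` are among `a`, `b`, and
   `b + 1` if `n + k` is even, with `a ≤ b`, and if `n + k` is odd then no size is `n - s - 1`.

Fourth part (both parities): there are nonzero real weights `v` (of any signs) and a real `c` such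
that every member of `F` has weight at least `c`, and each change of one element of a member which
lowers its weight makes the weight less than `c`.

Fifth part: the same for positive weights, with the diameter condition replaced by the weaker
condition that for two distinct members `|A ∖ B| ≤ s` or `|B ∖ A| ≤ s`. -/
theorem result :
    (∀ (n k : ℕ) (F : Finset (Finset (Fin n))) (c : ℕ), 1 ≤ k → k ≤ n →
      IsAntichain (· ⊆ ·) (F : Set (Finset (Fin n))) →
      (∀ A ∈ F, ∀ B ∈ F, (symmDiff A B).card ≤ n - k) →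
      (∀ A ∈ F, (n - k) / 2 ≤ A.card ∧ A.card ≤ n - (n - k) / 2) →
      (Odd (n + k) → ∀ A ∈ F, c ≤ A.card ∧ A.card < c + 3) →
      (Even (n + k) → ∀ A ∈ F, A.card = (n - k) / 2 ∨ A.card = n - (n - k) / 2 ∨
        (c ≤ A.card ∧ A.card < c + 6)) →
      F.card ≤ n.choose ((n + k + 1) / 2)) ∧
    (∀ (n k : ℕ) (F : Finset (Finset (Fin n))) (Z : Finset (Fin n)), 1 ≤ k → k ≤ n →
      IsAntichain (· ⊆ ·) (F : Set (Finset (Fin n))) →
      (∀ A ∈ F, ∀ B ∈ F, (symmDiff A B).card ≤ n - k) →
      Even (n + k) →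
      (∀ A ∈ F, (n - k) / 2 ≤ (symmDiff A Z).card ∧ (symmDiff A Z).card ≤ (n + k) / 2) →
      (Odd n ∨ (∀ A ∈ F, (symmDiff A Z).card ≠ (n - k) / 2) ∨
        (∀ A ∈ F, (symmDiff A Z).card ≠ (n + k) / 2)) →
      F.card ≤ n.choose ((n + k) / 2)) ∧
    (∀ (n k : ℕ) (F G : Finset (Finset (Fin n))), 1 ≤ k → k ≤ n →
      IsAntichain (· ⊆ ·) (F : Set (Finset (Fin n))) →
      (∀ A ∈ F, ∀ B ∈ F, (symmDiff A B).card ≤ n - k) →
      (G = F ∨ G = F.image (fun A => Aᶜ)) →
      ((∃ a, ∀ A ∈ G, A.card ≤ (n - k) / 2 ∨ A.card = a ∨ n - (n - k) / 2 ≤ A.card) ∨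
        (∃ a b, ∀ A ∈ G, A.card ≤ (n - k) / 2 ∨ A.card = a ∨ A.card = b) ∨
        (Even (n + k) ∧ ∃ a b, a ≤ b ∧
          ∀ A ∈ G, A.card ≤ (n - k) / 2 ∨ A.card = a ∨ A.card = b ∨ A.card = b + 1) ∨
        (∃ a, (n - k) / 2 < a ∧ a ≤ n - (n - k) / 2 ∧
          (∀ A ∈ G, A.card ≤ (n - k) / 2 ∨ a ≤ A.card) ∧
          (∀ A ∈ G, ∀ B ∈ G, a < A.card → a < B.card → B.card < n - (n - k) / 2 →
            (A \ B).card ≤ (n - k) / 2)) ∨
        ((∀ A ∈ G, (n - k) / 2 < A.card + k ∧ A.card ≤ n - (n - k) / 2) ∧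
          (Odd (n + k) → ∀ A ∈ G, A.card + 1 ≠ n - (n - k) / 2) ∧
          ∃ a b, a ≤ b ∧ ∀ A ∈ G, A.card ≤ (n - k) / 2 ∨ A.card = n - (n - k) / 2 ∨
            A.card = a ∨ A.card = b ∨ (Even (n + k) ∧ A.card = b + 1))) →
      F.card ≤ n.choose ((n + k + 1) / 2)) ∧
    (∀ (n k : ℕ) (F : Finset (Finset (Fin n))) (v : Fin n → ℝ) (c : ℝ), 1 ≤ k → k ≤ n →
      (∀ x, v x ≠ 0) →
      (∀ A ∈ F, c ≤ ∑ y ∈ A, v y ∧
        ∀ x, ∑ y ∈ symmDiff A {x}, v y < ∑ y ∈ A, v y → ∑ y ∈ symmDiff A {x}, v y < c) →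
      (∀ A ∈ F, ∀ B ∈ F, (symmDiff A B).card ≤ n - k) →
      F.card ≤ n.choose ((n + k + 1) / 2)) ∧
    (∀ (n s : ℕ) (F : Finset (Finset (Fin n))) (u : Fin n → ℝ) (c : ℝ), 2 * s ≤ n + 1 →
      (∀ x, 0 < u x) →
      (∀ A ∈ F, c ≤ ∑ y ∈ A, u y ∧ ∀ x ∈ A, ∑ y ∈ A, u y - u x < c) →
      (∀ A ∈ F, ∀ B ∈ F, A ≠ B → (A \ B).card ≤ s ∨ (B \ A).card ≤ s) →
      F.card ≤ n.choose s) :=
  ⟨fun n k F c hk hkn hanti hdiam hsz hodd heven =>
    few_levels n k hk hkn F hanti hdiam (fun A hA => (hsz A hA).1) (fun A hA => (hsz A hA).2) c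
      hodd heven,
   fun n k F Z hk hkn hanti hdiam he hsz h3 =>
    DiamEven.hole_even n k hk hkn he F hanti hdiam Z (fun A hA => (hsz A hA).1)
      (fun A hA => (hsz A hA).2) h3,
   fun n k F G hk hkn hanti hdiam hG h =>
    Pool.Agent.Rank.clause_all n k F G hk hkn hanti hdiam hG h,
   fun n k F v c hk hkn hv hF hd => threshold n k hk hkn F v c hv hF hd,
   fun n s F u c hs hu hF hc => by
    have h := Pool.Agent.F155W.bound_pos (α := Fin n) hu (c := c) (s := s)
      (by rw [Fintype.card_fin]; exact hs) hF hc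
    rwa [Fintype.card_fin] at h⟩

end Pool.Agent.Results.MP_f155e9_co.FewLevels
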