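import Pool.Agent.OddHalf26.Main
import Pool.Agent.OddHalf26.Num
import Pool.Agent.OddTwo.ChainPairs

set_option autoImplicit false

/-! The bound of Q1 for `k = 2`, and for `n + k` odd with explicit ranges. -/

namespace Pool.Agent.Results.MP_f155e9_co.OddHalf

open Finset Pool.Agent

/-- Let `2 ≤ k ≤ n` and let `F` be an antichain of diameter at most `n - k`. Then the bound
`|F| ≤ C(n, ⌈(n+k)/2⌉)` of Q1 holds in the following two cases:

(a) `k = 2`;

(b) `n + k` is odd, so `n = 2s + 1 + k` and the bound is `C(n, s)`; a member of size less than `s`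
meets every member of size more than `s + 1` and, dually, no member of size more than `n - s` covers
the ground set together with a member of size less than `n - s - 1` (both hold trivially if all
sizes lie in `[s, n - s]`); and `k² ≤ n` and `n ≥ 260`; or `n ≥ 2 k² + 6`; or `26 k ≤ n` and
`4 (a - s - 1) (n - s - 1 - a) ≤ n` for every size `a` of a member strictly between `s + 1` and
`n - s - 1`; or `(s + 1 + k) C(n, a) ≤ 2 (s + 1 - k) C(n, s + 1)` for these `a`. -/
theorem result (n k : ℕ) (hk : 2 ≤ k) (hkn : k ≤ n) (F : Finset (Finset (Fin n)))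
    (hF : IsAntichain (· ⊆ ·) (F : Set (Finset (Fin n))))
    (hd : ∀ A ∈ F, ∀ B ∈ F, (symmDiff A B).card ≤ n - k)
    (h : k = 2 ∨ ∃ s : ℕ, n = 2 * s + 1 + k ∧
      (∀ A ∈ F, ∀ B ∈ F, A.card < s → s + 1 < B.card → (A ∩ B).Nonempty) ∧
      (∀ A ∈ F, ∀ B ∈ F, n - s < A.card → B.card < n - s - 1 → A ∪ B ≠ univ) ∧
      ((k ^ 2 ≤ n ∧ 260 ≤ n) ∨ 2 * k ^ 2 + 6 ≤ n ∨
        (26 * k ≤ n ∧ ∀ A ∈ F, s + 1 < A.card → A.card < n - s - 1 →
          4 * ((A.card - s - 1) * (n - s - 1 - A.card)) ≤ n) ∨
        (∀ A ∈ F, s + 1 < A.card → A.card < n - s - 1 →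
          (s + 1 + k) * n.choose A.card ≤ 2 * ((s + 1 - k) * n.choose (s + 1))))) :
    F.card ≤ n.choose ((n + k + 1) / 2) := by
  rcases h with rfl | ⟨s, hn, h1, h2, h⟩
  · exact (OddTwo.ChainPairs.result n 2 (by norm_num) hkn (by omega)).2.2.2.1 rfl F hF hd
  · have h3 : F.card ≤ n.choose s := by
      refine OddHalf26.odd_main hn hk hF (fun A hA B hB => (hd A hA B hB).trans (by omega)) h1 h2 ?_
      intro A hA ha ha'
      rcases h with h | h | h | h
      · exact OddHalf26.num_cond hn hk (Or.inl h) _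
      · exact OddHalf26.num_cond hn hk (Or.inr h) _
      · exact OddHalf26.num_mid hn h.1 ha ha' (h.2 A hA ha ha')
      · exact h A hA ha ha'
    have h4 : n.choose s = n.choose ((n + k + 1) / 2) := by
      rw [← Nat.choose_symm (show s ≤ n by omega)]
      congr 1
      omega
    rwa [h4] at h3

end Pool.Agent.Results.MP_f155e9_co.OddHalf
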