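import Pool.Agent.F155B.Odd
import Pool.Agent.F155S.Final
import Pool.Agent.OddDiam.Final
import Pool.Agent.OddLin.Cor

set_option autoImplicit false

namespace Pool.Agent.Results.MP_f155e9_co.SmallDiameter

open Finset Pool.Agent.F155B

/-- The bound of Q1 for every `n` and every `1 ≤ k ≤ n` with `n - k ≤ 6`. -/
theorem small (n k : ℕ) (hk : 1 ≤ k) (hkn : k ≤ n) (hd : n - k ≤ 6)
    (F : Finset (Finset (Fin n))) (hanti : IsAntichain (· ⊆ ·) (F : Set (Finset (Fin n))))
    (hdiam : ∀ A ∈ F, ∀ B ∈ F, (symmDiff A B).card ≤ n - k) :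
    F.card ≤ n.choose ((n + k + 1) / 2) := by
  rcases eq_or_ne (n - k) 5 with h5 | h5
  · exact Pool.Agent.F155S.bound_five n k hk h5 F hanti hdiam
  have hc : Fintype.card (Fin n) = n := Fintype.card_fin n
  have hsymm : n.choose ((n + k + 1) / 2) = n.choose ((n - k) / 2) := by
    rw [← Nat.choose_symm (show (n + k + 1) / 2 ≤ n by omega)]
    congr 1
    omega
  rw [hsymm]
  have heven : ∀ s : ℕ, s ≤ 3 → n - k = 2 * s → F.card ≤ n.choose ((n - k) / 2) := by
    intro s hs hs2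
    have h1 := even_six (α := Fin n) (s := s) hs (by rw [hc]; omega) hanti
      (fun A hA B hB => by rw [← hs2]; exact hdiam A hA B hB)
    rw [hc] at h1
    have h2 : (n - k) / 2 = s := by omega
    rw [h2]
    exact h1
  have h1 : n - k = 0 ∨ n - k = 1 ∨ n - k = 2 ∨ n - k = 3 ∨ n - k = 4 ∨ n - k = 6 := by omega
  rcases h1 with h1 | h1 | h1 | h1 | h1 | h1
  · exact heven 0 (by omega) (by omega)
  · have h2 := diam_one hanti (fun A hA B hB => by rw [← h1]; exact hdiam A hA B hB)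
    have h3 : (n - k) / 2 = 0 := by omega
    rw [h3, Nat.choose_zero_right]
    exact h2
  · exact heven 1 (by omega) (by omega)
  · have h2 := diam_three (α := Fin n) (by rw [hc]; omega) hanti
      (fun A hA B hB => by rw [← h1]; exact hdiam A hA B hB)
    have h3 : (n - k) / 2 = 1 := by omega
    rw [h3, Nat.choose_one_right]
    rwa [hc] at h2
  · exact heven 2 (by omega) (by omega)
  · exact heven 3 (by omega) (by omega)

/-- (1) The bound of Q1 for both parities of `n + k` when `490 (n - k) ≤ n`, or `n ≥ 25000` and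
`100 (n - k) ≤ n`, or `10 (n - k)² ≤ n`, or `n - k ≤ 6`; (2) for all `n` and `k`, the bound of
Q1 with an explicit error term;
(3) the bound of Q1 for `21 ⌊(n - k)/2⌋ ≤ 4 n` when no member has size at most `⌊(n - k)/2⌋` or at
least `n - ⌊(n - k)/2⌋`. -/
theorem result :
    (∀ n k : ℕ, 1 ≤ k → k ≤ n →
      (n - k ≤ 6 ∨ 10 * (n - k) ^ 2 ≤ n ∨ 490 * (n - k) ≤ n ∨
        (25000 ≤ n ∧ 100 * (n - k) ≤ n)) →
      ∀ F : Finset (Finset (Fin n)), IsAntichain (· ⊆ ·) (F : Set (Finset (Fin n))) →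
      (∀ A ∈ F, ∀ B ∈ F, (symmDiff A B).card ≤ n - k) →
      F.card ≤ n.choose ((n + k + 1) / 2)) ∧
    (∀ n k : ℕ, k ≤ n →
      ∀ F : Finset (Finset (Fin n)), IsAntichain (· ⊆ ·) (F : Set (Finset (Fin n))) →
      (∀ A ∈ F, ∀ B ∈ F, (symmDiff A B).card ≤ n - k) →
      F.card ≤ n.choose ((n + k + 1) / 2) +
        2 * ∑ j ∈ Icc 1 ((n - k) / 4), n.choose ((n - k) / 2 - 2 * j)) ∧
    (∀ n k : ℕ, 1 ≤ k → k ≤ n → 21 * ((n - k) / 2) ≤ 4 * n →
      ∀ F : Finset (Finset (Fin n)), IsAntichain (· ⊆ ·) (F : Set (Finset (Fin n))) →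
      (∀ A ∈ F, ∀ B ∈ F, (symmDiff A B).card ≤ n - k) →
      (∀ A ∈ F, (n - k) / 2 < A.card ∧ A.card + (n - k) / 2 < n) →
      F.card ≤ n.choose ((n + k + 1) / 2)) := by
  refine ⟨fun n k hk hkn hd F hanti hdiam => ?_, fun n k hkn F hanti hdiam => ?_,
    fun n k hk hkn hn F hanti hdiam hsz => ?_⟩
  · rcases hd with hd | hd | hd
    · exact small n k hk hkn hd F hanti hdiam
    · exact Pool.Agent.OddDiam.final_small n k hkn hd F hanti hdiam
    · exact Pool.Agent.OddLin.final_linear n k hkn hd F hanti hdiam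
  · exact Pool.Agent.OddDiam.final_general n k hkn F hanti hdiam
  · exact Pool.Agent.OddDiam.final_middle n k hk hkn hn F hanti hdiam
      (fun A hA => (hsz A hA).1) (fun A hA => (hsz A hA).2)

end Pool.Agent.Results.MP_f155e9_co.SmallDiameter
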