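import Pool.Agent.EH11.Final
import Pool.Agent.TPP.Main

set_option autoImplicit false

/-! Antichains of bounded diameter: `n + k` even, all `n` and `k` (Theorem E: two families);
`n + k` odd: the mean of two neighbouring binomial coefficients, and the exact bound if
`2 k ^ 2 + 9 k + 41 ≤ n`. -/

namespace Pool.Agent.Results.MP_f155e9_co.TwoParities

open Finset Pool.Agent.EH11

theorem on_univ {n : ℕ} (F : Finset (Finset (Fin n))) : On (univ : Finset (Fin n)) F :=
  fun X _ => subset_univ X

theorem cross_of {n D : ℕ} {A B : Finset (Finset (Fin n))}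
    (h : ∀ X ∈ A, ∀ Y ∈ B, (symmDiff X Y).card ≤ D) : Cross (D : ℤ) A B :=
  fun X hX Y hY => by exact_mod_cast h X hX Y hY

/-- Let `1 ≤ k ≤ n`, `F` an antichain of subsets of an `n`-set of diameter at most `n - k`.
(1) If `n + k` is even, then `|F| ≤ C(n, ⌈(n+k)/2⌉)`.
(2) If `n + k` is odd, then `2 |F| ≤ C(n, ⌈(n+k)/2⌉) + C(n, ⌊(n+k)/2⌋)`, and
`|F| ≤ C(n, ⌈(n+k)/2⌉)` if `2 k² + 9 k + 41 ≤ n`.
(3) Antichains `A`, `B` with all cross distances at most `a + b < n`, `2a ≤ n`, `2b ≤ n + 1`,
`|A| ≥ C(n, a)`: then `|B| ≤ C(n, b)`. -/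
theorem result :
    (∀ n k : ℕ, 1 ≤ k → k ≤ n →
      ∀ F : Finset (Finset (Fin n)), IsAntichain (· ⊆ ·) (F : Set (Finset (Fin n))) →
        (∀ A ∈ F, ∀ B ∈ F, (symmDiff A B).card ≤ n - k) →
      (Even (n + k) → F.card ≤ n.choose ((n + k + 1) / 2)) ∧
      (Odd (n + k) →
        2 * F.card ≤ n.choose ((n + k + 1) / 2) + n.choose ((n + k) / 2) ∧
        (2 * k ^ 2 + 9 * k + 41 ≤ n → F.card ≤ n.choose ((n + k + 1) / 2)))) ∧
    ∀ n a b : ℕ, a + b < n → 2 * a ≤ n → 2 * b ≤ n + 1 →
      ∀ A B : Finset (Finset (Fin n)), IsAntichain (· ⊆ ·) (A : Set (Finset (Fin n))) →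
        IsAntichain (· ⊆ ·) (B : Set (Finset (Fin n))) →
        (∀ X ∈ A, ∀ Y ∈ B, (symmDiff X Y).card ≤ a + b) →
        n.choose a ≤ A.card → B.card ≤ n.choose b := by
  refine ⟨fun n k hk1 hkn F hF hd => ⟨fun he => ?_, fun ho => ⟨?_, fun h => ?_⟩⟩,
    fun n a b hD ha hb A B hA hB hd hu => ?_⟩
  · obtain ⟨c, hc⟩ := he
    obtain ⟨s, hs⟩ : ∃ s, n - k = 2 * s := ⟨n - c, by omega⟩
    have e1 : n.choose ((n + k + 1) / 2) = n.choose s := by
      rw [← Nat.choose_symm (by omega : s ≤ n)]
      congr 1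
      omega
    rw [e1]
    have h1 := even_half (V := (univ : Finset (Fin n))) (on_univ F) (AC.of_isAntichain hF)
      (s := s) (by rw [card_univ, Fintype.card_fin]; omega)
      (by
        have := cross_of (D := 2 * s) (A := F) (B := F)
          fun X hX Y hY => (hd X hX Y hY).trans hs.le
        simpa using this)
    rwa [card_univ, Fintype.card_fin] at h1
  · obtain ⟨c, hc⟩ := ho
    obtain ⟨s, hs⟩ : ∃ s, n - k = 2 * s + 1 := ⟨n - c - 1, by omega⟩
    have e1 : n.choose ((n + k + 1) / 2) = n.choose s := by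
      rw [← Nat.choose_symm (by omega : s ≤ n)]
      congr 1
      omega
    have e2 : n.choose ((n + k) / 2) = n.choose (s + 1) := by
      rw [← Nat.choose_symm (by omega : s + 1 ≤ n)]
      congr 1
      omega
    rw [e1, e2]
    have h1 := odd_half (V := (univ : Finset (Fin n))) (on_univ F) (AC.of_isAntichain hF)
      (s := s) (by rw [card_univ, Fintype.card_fin]; omega)
      (by
        have := cross_of (D := 2 * s + 1) (A := F) (B := F)
          fun X hX Y hY => (hd X hX Y hY).trans hs.le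
        simpa using this)
    rwa [card_univ, Fintype.card_fin] at h1
  · exact Pool.Agent.TPP.odd_main hk1 ho h F hF hd
  · have h1 := theoremE (V := (univ : Finset (Fin n))) (on_univ A) (on_univ B)
      (AC.of_isAntichain hA) (AC.of_isAntichain hB) (a := a) (b := b)
      (by rw [card_univ, Fintype.card_fin]; omega) (by rw [card_univ, Fintype.card_fin]; omega)
      (by rw [card_univ, Fintype.card_fin]; omega)
      (by
        have := cross_of (D := a + b) (A := A) (B := B) hd
        simpa using this)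
      (by rw [card_univ, Fintype.card_fin]; exact hu)
    rwa [card_univ, Fintype.card_fin] at h1

end Pool.Agent.Results.MP_f155e9_co.TwoParities
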